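import Pool.Agent.Helper22.TW.Stmts
import Pool.Agent.Helper95.BSC.LIM

/-!
# MP_8312c9_nt, module PL: values in `E₀` and exact compatibility with Kummer classes
-/

set_option autoImplicit false

namespace Pool.Agent.Helper22.TW

open Pool.Agent.Helper14.BSC Polynomial

/-- a finite extension of `ℚ_p` is closed in `ℂ_p` -/
theorem pl_closed {p : ℕ} [Fact p.Prime] (E : IntermediateField ℚ_[p] ℂ_[p])
    (hE : FiniteDimensional ℚ_[p] E) : IsClosed (E : Set ℂ_[p]) := by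
  have h1 : FiniteDimensional ℚ_[p] E.toSubmodule := hE
  exact Submodule.closed_of_finiteDimensional E.toSubmodule

/-- elements of `E` close to `1` are `M`-th powers in `E` -/
theorem pl_root {p : ℕ} [Fact p.Prime] (E : IntermediateField ℚ_[p] ℂ_[p])
    (hE : FiniteDimensional ℚ_[p] E) (M : ℕ) (hM : 0 < M) :
    ∃ δ : ℝ, 0 < δ ∧ ∀ y ∈ E, ‖y - 1‖ < δ → ∃ w ∈ E, w ^ M = y := by
  have hfin : FiniteDimensional ℚ_[p] E.toSubmodule := hE
  let _ : NontriviallyNormedField E :=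
    { (inferInstance : NormedField E) with
      non_trivial := by
        obtain ⟨x, hx⟩ := NontriviallyNormedField.non_trivial (α := ℚ_[p])
        refine ⟨algebraMap ℚ_[p] E x, ?_⟩
        have h1 : ‖algebraMap ℚ_[p] E x‖ = ‖((x : ℚ_[p]) : ℂ_[p])‖ := rfl
        rw [h1, PadicComplex.norm_extends' p x]
        exact hx }
  have : CompleteSpace E := (pl_closed E hE).completeSpace_coe
  have hd : HasStrictDerivAt (fun x : E => x ^ M) ((M : E) * 1 ^ (M - 1)) 1 :=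
    hasStrictDerivAt_pow M 1
  have h0 : (M : E) * 1 ^ (M - 1) ≠ 0 := by
    rw [one_pow, mul_one]
    have : CharZero E := algebraRat.charZero E
    exact_mod_cast hM.ne'
  have h1 := hd.map_nhds_eq h0
  have h2 : (fun x : E => x ^ M) '' Set.univ ∈ nhds ((fun x : E => x ^ M) 1) := by
    rw [← h1]
    exact Filter.image_mem_map Filter.univ_mem
  simp only [one_pow] at h2
  obtain ⟨δ, hδ, h3⟩ := Metric.mem_nhds_iff.1 h2
  refine ⟨δ, hδ, fun y hy hy1 => ?_⟩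
  have h4 : (⟨y, hy⟩ : E) ∈ Metric.ball (1 : E) δ := by
    rw [Metric.mem_ball, dist_eq_norm]
    exact hy1
  obtain ⟨w, -, hw⟩ := h3 h4
  exact ⟨w, w.2, congrArg Subtype.val hw⟩

/-- units of a finite extension of `ℚ_p` have uniformly small powers minus one -/
theorem pl_pow (hEFIN : ST_EFIN) {p : ℕ} [Fact p.Prime] (E : IntermediateField ℚ_[p] ℂ_[p])
    (hE : FiniteDimensional ℚ_[p] E) (δ : ℝ) (hδ : 0 < δ) :
    ∃ N : ℕ, 0 < N ∧ ∀ u ∈ E, ‖u‖ = 1 → ∀ K : ℕ, ‖u ^ (N * K) - 1‖ < δ := by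
  obtain ⟨e, N, he, hN, hEN⟩ := hEFIN p E hE
  have hp1 : (1 : ℝ) < p := by exact_mod_cast (Fact.out : p.Prime).one_lt
  have hp0 : (0 : ℝ) < p := by linarith
  obtain ⟨s, hs0, hs1, hsp, hsu⟩ : ∃ s : ℝ, 0 ≤ s ∧ s < 1 ∧ 1 / (p : ℝ) ≤ s ∧
      ∀ w ∈ E, ‖w‖ < 1 → ‖w‖ ≤ s := by
    refine ⟨(1 / (p : ℝ)) ^ ((1 : ℝ) / e), by positivity, ?_, ?_, ?_⟩
    · refine Real.rpow_lt_one (by positivity) ?_ (by positivity)
      rw [div_lt_one hp0]
      exact hp1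
    · have h1 : (1 : ℝ) / e ≤ 1 := by
        rw [div_le_one (by exact_mod_cast he)]
        exact_mod_cast he
      have h2 := Real.rpow_le_rpow_of_exponent_ge (x := 1 / (p : ℝ)) (by positivity)
        (by rw [div_le_one hp0]; exact hp1.le) h1
      simpa using h2
    · intro w hw hw1
      rcases eq_or_ne w 0 with rfl | hw0
      · rw [norm_zero]
        positivity
      obtain ⟨j, hj⟩ := (hEN w hw hw0).1
      have h1 : (p : ℝ) ^ j < 1 := by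
        rw [← hj]
        exact pow_lt_one₀ (norm_nonneg _) hw1 he.ne'
      have h2 : j ≤ -1 := by
        by_contra hc
        have h3 : (1 : ℝ) ≤ (p : ℝ) ^ j := one_le_zpow₀ hp1.le (by omega)
        linarith
      have h4 : ‖w‖ ^ e ≤ 1 / p := by
        rw [hj, one_div, ← zpow_neg_one]
        exact zpow_le_zpow_right₀ hp1.le h2
      have h5 : ‖w‖ = (‖w‖ ^ e) ^ ((1 : ℝ) / e) := by
        rw [← Real.rpow_natCast, ← Real.rpow_mul (norm_nonneg _)]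
        rw [mul_one_div_cancel (by exact_mod_cast he.ne'), Real.rpow_one]
      rw [h5]
      exact Real.rpow_le_rpow (by positivity) h4 (by positivity)
  obtain ⟨m, hm⟩ := exists_pow_lt_of_lt_one hδ hs1
  have hpp : 0 < p ^ m := pow_pos (Fact.out : p.Prime).pos m
  refine ⟨N * p ^ m, Nat.mul_pos hN hpp, fun u hu hu1 K => ?_⟩
  have hu0 : u ^ K ≠ 0 := by
    intro h
    have h1 : ‖u ^ K‖ = 1 := by rw [norm_pow, hu1, one_pow]
    rw [h, norm_zero] at h1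
    exact zero_ne_one h1
  have h4 := (hEN (u ^ K) (pow_mem hu K) hu0).2 (by rw [norm_pow, hu1, one_pow])
  have h5 : ‖(u ^ K) ^ N - 1‖ ≤ s :=
    hsu _ (E.sub_mem (pow_mem (pow_mem hu K) N) E.one_mem) h4
  have h6 := lim_iter p s hsp hs0 hs1 ((u ^ K) ^ N - 1) h5 m
  rw [add_sub_cancel, ← pow_mul, ← pow_mul] at h6
  have e1 : N * p ^ m * K = K * (N * p ^ m) := by ring
  rw [e1]
  refine lt_of_le_of_lt h6 (lt_of_le_of_lt ?_ hm)
  rw [pow_succ]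
  exact mul_le_of_le_one_right (pow_nonneg hs0 m) hs1.le

section

variable {k Ω : Type} [Field k] [Field Ω] [Algebra k Ω]

/-- Kummer theory of the fixed field -/
theorem pl_kum (hKUM : ST_KUM) (hBOT : ST_BOT) [CharZero k] [IsAlgClosed Ω] (D : Sec k Ω)
    (n : ℕ) (hn : 0 < n) (x : LL D) (hx : x ≠ 0) :
    ∃ (c : k) (g : LL D), x = algebraMap k (LL D) c * g ^ n := by
  obtain ⟨c, -, y, -, h⟩ := hKUM k Ω D ∅ n hn x hx
  obtain ⟨d, hd⟩ := hBOT k Ω (c : Acl k Ω) c.2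
  refine ⟨d, y, ?_⟩
  have h1 : inc D ∅ c = algebraMap k (LL D) d := by
    apply Subtype.ext
    rw [coe_inc, hd]
    rfl
  rw [h, h1]

/-- roots of constants in the fixed field are constants -/
theorem pl_const (hROOT : ST_ROOT) (hBOT : ST_BOT) [CharZero k] [IsAlgClosed Ω] (D : Sec k Ω)
    (n : ℕ) (hn : 0 < n) (y : LL D) (c : k) (h : y ^ n = algebraMap k (LL D) c) :
    ∃ d : k, y = algebraMap k (LL D) d := by
  have h1 : inc D ∅ (algebraMap k (FF ∅) c) = algebraMap k (LL D) c := (inc D ∅).commutes c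
  obtain ⟨d, hd⟩ := hROOT k Ω D ∅ n hn y (algebraMap k (FF ∅) c) (by rw [h1, h])
  obtain ⟨d', hd'⟩ := hBOT k Ω (d : Acl k Ω) d.2
  refine ⟨d', ?_⟩
  have h2 : d = algebraMap k (FF ∅) d' := Subtype.ext hd'
  rw [hd, h2]
  exact (inc D ∅).commutes d'

/-- the main step for a place with controlled norms -/
theorem pl_main (hKUM : ST_KUM) (hROOT : ST_ROOT) (hBOT : ST_BOT) (hEFIN : ST_EFIN) [CharZero k]
    [IsAlgClosed Ω] (D : Sec k Ω) (p : ℕ) [Fact p.Prime] (σ : k →+* ℂ_[p])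
    (E₀ : IntermediateField ℚ_[p] ℂ_[p]) (hE₀ : FiniteDimensional ℚ_[p] E₀) (hσ : ∀ x, σ x ∈ E₀)
    (P : Place D p σ) (h : ℕ) (hh : 0 < h) (hP : ∀ w ∈ P.E, ∃ w₁ ∈ E₀, ‖w‖ ^ h = ‖w₁‖)
    (x : P.C) (hx : P.φ x ≠ 0) (M : ℕ) (hM : 0 < M) (c : k) (g : LL D)
    (hxc : (x : LL D) = algebraMap k (LL D) c * g ^ M) :
    P.φ x ∈ E₀ ∧ ∃ w ∈ E₀, w ≠ 0 ∧ σ c = P.φ x * w ^ M := by
  have hx0 : (x : LL D) ≠ 0 := by
    intro h0
    apply hx
    rw [P.ker]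
    exact Or.inl h0
  have hc0 : c ≠ 0 := by
    rintro rfl
    rw [map_zero, zero_mul] at hxc
    exact hx0 hxc
  have hg0 : g ≠ 0 := by
    rintro rfl
    rw [zero_pow hM.ne', mul_zero] at hxc
    exact hx0 hxc
  have hφ0 : 0 < ‖P.φ x‖ := norm_pos_iff.2 hx
  have hfinP := P.finE
  -- approximation
  have happ : ∀ δ : ℝ, 0 < δ → ∃ (N₃ : ℕ) (cN : k) (gN : LL D) (w₁ : ℂ_[p]), cN ≠ 0 ∧ w₁ ∈ E₀ ∧
      w₁ ≠ 0 ∧ (x : LL D) = algebraMap k (LL D) cN * (gN ^ N₃) ^ M ∧ ∃ N₄ : ℕ,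
      ‖σ cN / (w₁ ^ N₄) ^ M - P.φ x‖ < δ := by
    intro δ hδ
    obtain ⟨N, hN, hpow⟩ := pl_pow hEFIN (E₀ ⊔ P.E) inferInstance (δ / ‖P.φ x‖)
      (div_pos hδ hφ0)
    have hNN : 0 < h * (N * M) := by positivity
    obtain ⟨cN, gN, hcg⟩ := pl_kum hKUM hBOT D (h * (N * M)) hNN x hx0
    obtain ⟨w, hw, y, hy, hyx, hcw⟩ := P.kum x hx (h * (N * M)) hNN (min δ ‖P.φ x‖)
      (lt_min hδ hφ0) cN gN hcg
    have hcN0 : cN ≠ 0 := by
      rintro rfl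
      rw [map_zero, zero_mul] at hcg
      exact hx0 hcg
    have hσc : σ cN ≠ 0 := by
      intro h0
      exact hcN0 ((map_eq_zero σ).1 h0)
    have hw0 : w ≠ 0 := by
      rintro rfl
      rw [zero_pow hNN.ne', mul_zero] at hcw
      exact hσc hcw
    obtain ⟨w₁, hw₁, hnw⟩ := hP w hw
    have hw₁0 : w₁ ≠ 0 := by
      rintro rfl
      rw [norm_zero] at hnw
      exact hw0 (norm_eq_zero.1 (pow_eq_zero_iff hh.ne' |>.1 hnw))
    -- the unit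
    have hu : w ^ h / w₁ ∈ E₀ ⊔ P.E :=
      div_mem (pow_mem ((le_sup_right : P.E ≤ E₀ ⊔ P.E) hw) h)
        ((le_sup_left : E₀ ≤ E₀ ⊔ P.E) hw₁)
    have hu1 : ‖w ^ h / w₁‖ = 1 := by
      rw [norm_div, norm_pow, hnw, div_self (norm_ne_zero_iff.2 hw₁0)]
    have hup := hpow _ hu hu1 M
    have hyn : ‖y‖ = ‖P.φ x‖ := by
      have h3 : ‖y - P.φ x‖ < ‖P.φ x‖ := hyx.trans_le (min_le_right _ _)
      have h4 := IsUltrametricDist.norm_add_eq_max_of_norm_ne_norm (x := y - P.φ x) (y := P.φ x)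
        h3.ne
      rw [sub_add_cancel, max_eq_right h3.le] at h4
      exact h4
    refine ⟨h * N, cN, gN, w₁, hcN0, hw₁, hw₁0, ?_, N, ?_⟩
    · rw [← pow_mul, mul_assoc]
      exact hcg
    · have e1 : σ cN / (w₁ ^ N) ^ M - P.φ x =
          y * ((w ^ h / w₁) ^ (N * M) - 1) + (y - P.φ x) := by
        rw [hcw, ← pow_mul, div_pow, ← pow_mul]
        have : w₁ ^ (N * M) ≠ 0 := pow_ne_zero _ hw₁0
        field_simp
        ring
      rw [e1]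
      refine lt_of_le_of_lt (IsUltrametricDist.norm_add_le_max _ _) (max_lt ?_ ?_)
      · rw [norm_mul, hyn]
        calc ‖P.φ x‖ * ‖(w ^ h / w₁) ^ (N * M) - 1‖ < ‖P.φ x‖ * (δ / ‖P.φ x‖) :=
              mul_lt_mul_of_pos_left hup hφ0
          _ = δ := by field_simp
      · exact hyx.trans_le (min_le_left _ _)
  have hφE : P.φ x ∈ E₀ := by
    have hcl := pl_closed E₀ hE₀
    have h1 : P.φ x ∈ closure (E₀ : Set ℂ_[p]) := by
      rw [Metric.mem_closure_iff]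
      intro δ hδ
      obtain ⟨N₃, cN, gN, w₁, hcN0, hw₁, hw₁0, hcg, N₄, hlt⟩ := happ δ hδ
      refine ⟨σ cN / (w₁ ^ N₄) ^ M, div_mem (hσ cN) (pow_mem (pow_mem hw₁ _) _), ?_⟩
      rw [dist_comm, dist_eq_norm]
      exact hlt
    rw [hcl.closure_eq] at h1
    exact h1
  refine ⟨hφE, ?_⟩
  obtain ⟨δ₁, hδ₁, hroot⟩ := pl_root E₀ hE₀ M hM
  obtain ⟨N₃, cN, gN, w₁, hcN0, hw₁, hw₁0, hcg, N₄, hlt⟩ := happ (δ₁ * ‖P.φ x‖) (by positivity)
  -- the root of eta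
  have hη : σ cN / (w₁ ^ N₄) ^ M / P.φ x ∈ E₀ :=
    div_mem (div_mem (hσ cN) (pow_mem (pow_mem hw₁ _) _)) hφE
  have hη1 : ‖σ cN / (w₁ ^ N₄) ^ M / P.φ x - 1‖ < δ₁ := by
    have e1 : σ cN / (w₁ ^ N₄) ^ M / P.φ x - 1 =
        (σ cN / (w₁ ^ N₄) ^ M - P.φ x) / P.φ x := by
      rw [sub_div, div_self hx]
    rw [e1, norm_div, div_lt_iff₀ hφ0]
    exact hlt
  obtain ⟨w₂, hw₂, hw₂M⟩ := hroot _ hη hη1
  -- comparison of the two Kummer presentations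
  have hgN0 : gN ^ N₃ ≠ 0 := by
    intro h0
    rw [h0, zero_pow hM.ne', mul_zero] at hcg
    exact hx0 hcg
  have hAc : algebraMap k (LL D) cN ≠ 0 := by
    intro h0
    exact hcN0 ((map_eq_zero _).1 h0)
  have hq : (gN ^ N₃ / g) ^ M = algebraMap k (LL D) (c / cN) := by
    rw [div_pow, map_div₀]
    rw [div_eq_div_iff (pow_ne_zero _ hg0) hAc]
    have h1 := hcg.symm.trans hxc
    rw [mul_comm] at h1
    exact h1
  obtain ⟨u₀, hu₀⟩ := pl_const hROOT hBOT D M hM _ _ hq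
  have hcu : c = cN * u₀ ^ M := by
    rw [hu₀, ← map_pow] at hq
    have h1 := (algebraMap k (LL D)).injective hq
    rw [h1]
    field_simp
  refine ⟨w₁ ^ N₄ * w₂ * σ u₀, mul_mem (mul_mem (pow_mem hw₁ _) hw₂) (hσ _), ?_, ?_⟩
  · have hσc : σ c ≠ 0 := by
      intro h0
      exact hc0 ((map_eq_zero σ).1 h0)
    have hw₂0 : w₂ ≠ 0 := by
      rintro rfl
      rw [zero_pow hM.ne'] at hw₂M
      have h1 : σ cN ≠ 0 := fun h0 => hcN0 ((map_eq_zero σ).1 h0)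
      have h2 : σ cN / (w₁ ^ N₄) ^ M / P.φ x ≠ 0 :=
        div_ne_zero (div_ne_zero h1 (pow_ne_zero _ (pow_ne_zero _ hw₁0))) hx
      exact h2 hw₂M.symm
    have hu0 : σ u₀ ≠ 0 := by
      intro h0
      have h1 := (map_eq_zero σ).1 h0
      rw [h1, zero_pow hM.ne', mul_zero] at hcu
      exact hc0 hcu
    exact mul_ne_zero (mul_ne_zero (pow_ne_zero _ hw₁0) hw₂0) hu0
  · rw [hcu, map_mul, map_pow, mul_pow, mul_pow, hw₂M]
    have : (w₁ ^ N₄) ^ M ≠ 0 := pow_ne_zero _ (pow_ne_zero _ hw₁0)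
    field_simp

end

/-- **Module PL.** -/
theorem st_PL (hUNQ : ST_UNQ) (hKUM : ST_KUM) (hROOT : ST_ROOT) (hBOT : ST_BOT)
    (hEFIN : ST_EFIN) (hRK : ST_RK) : ST_PL := by
  intro k Ω _ _ _ _ _ D p _ σ E₀ hE₀ hσ P
  obtain ⟨P₁, hP₁⟩ := hRK k Ω D p σ E₀ hE₀ hσ
  obtain ⟨hC, hφ⟩ := hUNQ k Ω D p σ P P₁
  have key : ∀ x : P.C, P.φ x ≠ 0 → ∀ M : ℕ, 0 < M → ∀ (c : k) (g : LL D),
      (x : LL D) = algebraMap k (LL D) c * g ^ M →
      P.φ x ∈ E₀ ∧ ∃ w ∈ E₀, w ≠ 0 ∧ σ c = P.φ x * w ^ M := by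
    intro x hx M hM c g hcg
    have hx' : (x : LL D) ∈ P₁.C := hC ▸ x.2
    have h1 : P.φ x = P₁.φ ⟨x, hx'⟩ := hφ x x.2 hx'
    rw [h1] at hx ⊢
    exact pl_main hKUM hROOT hBOT hEFIN D p σ E₀ hE₀ hσ P₁ _ (Nat.factorial_pos _) hP₁
      ⟨x, hx'⟩ hx M hM c g hcg
  refine ⟨fun x => ?_, fun x hx M hM c g hcg => (key x hx M hM c g hcg).2⟩
  by_cases hx : P.φ x = 0
  · rw [hx]
    exact E₀.zero_mem
  · exact (key x hx 1 one_pos 1 x (by rw [map_one, one_mul, pow_one])).1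

end Pool.Agent.Helper22.TW
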