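import Pool.Agent.Helper22.TW.Stmts
import Pool.Agent.Helper1.BSX.Core

/-!
# MP_8312c9_nt, module UNQ: uniqueness of the place over an embedding
-/

set_option autoImplicit false

namespace Pool.Agent.Helper22.TW

open Pool.Agent.Helper14.BSC

/-- **Module UNQ.** -/
theorem st_UNQ (hKUM : ST_KUM) (hBOT : ST_BOT) (hLIM : ST_LIM) : ST_UNQ := by
  intro k Ω _ _ _ _ _ D p _ σ P P'
  have key : ∀ (Q Q' : Place D p σ) (x : LL D) (hx : x ∈ Q.C), ∃ hx' : x ∈ Q'.C,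
      Q'.φ ⟨x, hx'⟩ = Q.φ ⟨x, hx⟩ := fun Q Q' x hx =>
    Pool.Agent.Helper1.BSX.place_unique hKUM hBOT hLIM Q Q' (z := Q.φ ⟨x, hx⟩) ⟨hx, rfl⟩
  constructor
  · ext x
    exact ⟨fun hx => (key P P' x hx).1, fun hx => (key P' P x hx).1⟩
  · intro x hx hx'
    exact (key P P' x hx).2.symm

end Pool.Agent.Helper22.TW
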