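import Pool.Agent.Helper22.TW.Stmts

/-!
# MP_8312c9_nt, module MAPP: functoriality of the group of points
-/

set_option autoImplicit false

namespace Pool.Agent.Helper22.TW

section

variable {M M' : Type} [Field M] [CharZero M] [Field M'] [CharZero M'] (j : M →+* M')
  {e : Fin 3 → M} (he : Function.Injective e) {e' : Fin 3 → M'} (he' : Function.Injective e')
  (hj : ∀ i, e' i = j (e i))

include hj in
omit [CharZero M] [CharZero M'] in
theorem mapp_eqn {x y : M} (h : Eqn e x y) : Eqn e' (j x) (j y) := by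
  unfold Eqn at h ⊢
  rw [hj, hj, hj, ← map_pow, h, map_mul, map_mul, map_sub, map_sub, map_sub]

/-- the map on points -/
noncomputable def mapp_fun (P : EE e) : EE e' :=
  match (P : (W3 e).Point) with
  | WeierstrassCurve.Affine.Point.zero => 0
  | WeierstrassCurve.Affine.Point.some x y h =>
    EE.pt he' (j x) (j y) (mapp_eqn j hj ((W3_equation_iff x y).1 h.1))

theorem mapp_zero : mapp_fun j he' hj (0 : EE e) = 0 := rfl

theorem mapp_pt {x y : M} (h : Eqn e x y) :
    mapp_fun j he' hj (EE.pt he x y h) = EE.pt he' (j x) (j y) (mapp_eqn j hj h) := rfl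

include he in
theorem mapp_add (P Q : EE e) :
    mapp_fun j he' hj (P + Q) = mapp_fun j he' hj P + mapp_fun j he' hj Q := by
  rcases EE.cases he P with rfl | ⟨x₁, y₁, h₁, rfl⟩
  · rw [zero_add, mapp_zero, zero_add]
  rcases EE.cases he Q with rfl | ⟨x₂, y₂, h₂, rfl⟩
  · rw [add_zero, mapp_zero, add_zero]
  by_cases hx : x₁ = x₂
  · subst hx
    rcases EE.x_eq he h₁ h₂ with heq | heq
    · obtain ⟨-, hy⟩ := EE.pt_inj he heq
      subst hy
      by_cases hy0 : y₁ = 0
      · subst hy0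
        rw [EE.add_self_zero he h₁, mapp_zero, mapp_pt]
        have h3 : EE.pt he' (j x₁) (j 0) (mapp_eqn j hj h₁) =
            EE.pt he' (j x₁) 0 (by have := mapp_eqn j hj h₁; rwa [map_zero] at this) :=
          EE.pt_congr he' rfl (map_zero j)
        rw [h3, EE.add_self_zero]
      · obtain ⟨x₃, y₃, h₃, hs, hx₃, hy₃⟩ := EE.add_self he h₁ hy0
        have hy0' : j y₁ ≠ 0 := (map_ne_zero j).2 hy0
        obtain ⟨x₄, y₄, h₄, hs', hx₄, hy₄⟩ := EE.add_self he' (mapp_eqn j hj h₁) hy0'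
        rw [hs, mapp_pt, mapp_pt, hs']
        have e1 : j x₃ = x₄ := by
          rw [hx₃, hx₄, hj, hj, hj]
          simp only [map_add, map_sub, map_mul, map_div₀, map_pow, map_ofNat]
        refine EE.pt_congr he' e1 ?_
        rw [hy₃, hy₄, ← e1, hj, hj, hj]
        simp only [map_add, map_sub, map_mul, map_div₀, map_neg, map_ofNat]
    · rw [heq, neg_add_cancel, mapp_zero]
      rw [EE.neg_pt he h₂, mapp_pt, mapp_pt]
      have h3 : EE.pt he' (j x₁) (j (-y₂)) (mapp_eqn j hj h₂.neg) =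
          -EE.pt he' (j x₁) (j y₂) (mapp_eqn j hj h₂) := by
        rw [EE.neg_pt]
        exact EE.pt_congr he' rfl (map_neg j y₂)
      rw [h3, neg_add_cancel]
  · obtain ⟨x₃, y₃, h₃, hs, hx₃, hy₃⟩ := EE.add_of_x_ne he h₁ h₂ hx
    have hx' : j x₁ ≠ j x₂ := fun h => hx (j.injective h)
    obtain ⟨x₄, y₄, h₄, hs', hx₄, hy₄⟩ := EE.add_of_x_ne he' (mapp_eqn j hj h₁)
      (mapp_eqn j hj h₂) hx'
    rw [hs, mapp_pt, mapp_pt, mapp_pt, hs']
    have e1 : j x₃ = x₄ := by
      rw [hx₃, hx₄, hj, hj, hj]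
      simp only [map_add, map_sub, map_div₀, map_pow]
    refine EE.pt_congr he' e1 ?_
    rw [hy₃, hy₄, ← e1]
    simp only [map_add, map_sub, map_mul, map_div₀, map_neg]

end

/-- **Module MAPP.** -/
theorem st_MAPP : ST_MAPP := by
  intro M M' _ _ _ _ j e he e' he' hj
  refine ⟨{ toFun := mapp_fun j he' hj
            map_zero' := mapp_zero j he' hj
            map_add' := mapp_add j he he' hj }, fun x y h => ⟨mapp_eqn j hj h, rfl⟩⟩

end Pool.Agent.Helper22.TW
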