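import Pool.Agent.Helper22.TW.Stmts

/-!
# MP_8312c9_nt, module TWO: infinitely divisible points have the value `∞` at `2`-adic places
-/

set_option autoImplicit false

namespace Pool.Agent.Helper22.TW

open Pool.Agent.Helper14.BSC

/-- **Module TWO.** -/
theorem st_TWO (hOPN : ST_OPN) (hLCF : ST_LCF) (hLCO : ST_LCO) (hCON : ST_CON) : ST_TWO := by
  intro F k Ω _ _ _ _ _ _ _ _ _ _ _ t hgen hfg D e hinj hodd he f y h hdiv σ E hE hσE hdense P hf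
  obtain ⟨ε₁, hε₁, h1⟩ := hOPN F k Ω t hgen D 2 σ E hE hσE hdense f P hf
  obtain ⟨ε₂, G, hε₂, hG, h2⟩ := hLCF F k Ω t hgen D e hinj he f y h hdiv σ E hE hσE
  obtain ⟨β, ε₃, hβ, hε₃, h3⟩ := hLCO F k Ω t hgen D e hinj hodd he f y h hdiv
    (σ.comp (algebraMap F k)) E hE (fun x => hσE _)
  refine hCON F k Ω t hgen hfg D 2 σ E hE hσE hdense f
    ⟨min ε₁ ε₂, G, lt_min hε₁ hε₂, hG, fun σ' hσ' hE' ht P' => ?_⟩
    ⟨β, ε₃, hβ, hε₃, fun σ' hσ' hE' ht P' => h3 σ' hσ' hE' ht P'⟩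
  have hfP : f ∈ P'.C := h1 σ' hσ' hE' (ht.trans_le (min_le_left _ _)) P'
  exact ⟨hfP, h2 σ' hσ' hE' (ht.trans_le (min_le_right _ _)) P' hfP⟩

end Pool.Agent.Helper22.TW
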