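import Pool.Agent.Helper22.TW.Stmts

/-!
# MP_8312c9_nt, module UNF: uniformizers
-/

set_option autoImplicit false

namespace Pool.Agent.Helper22.TW

open Pool.Agent.Helper14.BSC

/-- **Module UNF.** -/
theorem st_UNF (hEFIN : ST_EFIN) : ST_UNF := by
  intro p _ E hE
  obtain ⟨e, N, he, hN, hEN⟩ := hEFIN p E hE
  have hp1 : (1 : ℝ) < p := by exact_mod_cast (Fact.out : p.Prime).one_lt
  have hp0 : (0 : ℝ) < p := by linarith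
  have hpn : ‖(p : ℂ_[p])‖ = (p : ℝ)⁻¹ := by
    have h1 := PadicComplex.norm_extends' p (p : ℚ_[p])
    rw [Padic.norm_p] at h1
    rw [← h1]
    simp
  have hpE : (p : ℂ_[p]) ∈ E := natCast_mem E p
  have hex : ∃ j : ℕ, 0 < j ∧ ∃ w ∈ E, ‖w‖ ^ e = (p : ℝ) ^ (-(j : ℤ)) := by
    refine ⟨e, he, p, hpE, ?_⟩
    rw [hpn, inv_pow, zpow_neg, zpow_natCast]
  classical
  obtain ⟨hj0, ϖ, hϖ, hϖn⟩ := Nat.find_spec hex
  have hmin : ∀ m : ℕ, 0 < m → m < Nat.find hex → ∀ w ∈ E, ‖w‖ ^ e ≠ (p : ℝ) ^ (-(m : ℤ)) := by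
    intro m hm hlt w hw h
    exact Nat.find_min hex hlt ⟨hm, w, hw, h⟩
  obtain ⟨j₀, hj₀⟩ : ∃ j₀ : ℕ, j₀ = Nat.find hex := ⟨_, rfl⟩
  rw [← hj₀] at hj0 hϖn hmin
  have hpos : 0 < ‖ϖ‖ := by
    by_contra h
    have h1 : ‖ϖ‖ = 0 := le_antisymm (not_lt.1 h) (norm_nonneg _)
    rw [h1, zero_pow he.ne'] at hϖn
    have h2 : (0 : ℝ) < (p : ℝ) ^ (-(j₀ : ℤ)) := zpow_pos hp0 _
    linarith
  have hlt : ‖ϖ‖ < 1 := by
    by_contra h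
    have h1 := one_le_pow₀ (not_lt.1 h) (n := e)
    rw [hϖn, zpow_neg, zpow_natCast] at h1
    have h2 : ((p : ℝ) ^ j₀)⁻¹ < 1 := inv_lt_one_of_one_lt₀ (one_lt_pow₀ hp1 hj0.ne')
    linarith
  have hϖ0 : ϖ ≠ 0 := norm_pos_iff.1 hpos
  refine ⟨ϖ, hϖ, hpos, hlt, fun z hz hz0 => ?_⟩
  obtain ⟨j, hj⟩ := (hEN z hz hz0).1
  obtain ⟨q, r, hq, hr⟩ : ∃ q : ℤ, ∃ r : ℕ, -j = q * j₀ + r ∧ r < j₀ := by
    have hj' : (0 : ℤ) < j₀ := by exact_mod_cast hj0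
    refine ⟨(-j) / j₀, ((-j) % j₀).toNat, ?_, ?_⟩
    · rw [Int.toNat_of_nonneg (Int.emod_nonneg _ hj'.ne')]
      have := Int.emod_add_mul_ediv (-j) j₀
      linarith
    · have h1 := Int.emod_lt_of_pos (-j) hj'
      have h2 := Int.emod_nonneg (-j) hj'.ne'
      omega
  have h1 : ‖z / ϖ ^ q‖ ^ e = (p : ℝ) ^ (-(r : ℤ)) := by
    have h2 : (‖ϖ‖ ^ q) ^ e = (p : ℝ) ^ (-(q * j₀)) := by
      rw [← zpow_natCast, ← zpow_mul, mul_comm, zpow_mul, zpow_natCast, hϖn, ← zpow_mul]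
      congr 1
      ring
    rw [norm_div, norm_zpow, div_pow, hj, h2, ← zpow_sub₀ hp0.ne']
    congr 1
    omega
  have hmem : z / ϖ ^ q ∈ E := div_mem hz (zpow_mem hϖ q)
  have hr0 : r = 0 := by
    by_contra h
    exact hmin r (Nat.pos_of_ne_zero h) hr _ hmem h1
  refine ⟨q, ?_⟩
  rw [hr0] at h1
  simp only [Nat.cast_zero, neg_zero, zpow_zero] at h1
  have h3 : ‖z / ϖ ^ q‖ = 1 := (pow_eq_one_iff_of_nonneg (norm_nonneg _) he.ne').1 h1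
  rw [norm_div, norm_zpow, div_eq_one_iff_eq (zpow_ne_zero _ hpos.ne')] at h3
  exact h3

end Pool.Agent.Helper22.TW
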